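import Pool.Agent.Helper38.SD.GoalsC

/-!
# Project SD (MP_fc6b1e_nt): when is the field of a character a CM field (packet C_IFF)
-/

set_option autoImplicit false

namespace Pool.Agent.Helper30.SD

open NumberField Module
open Pool.Agent.Helper38.FD (Chr CutsOut)

section conj

variable {Ω : Type} [Field Ω] [CharZero Ω] [Algebra.IsAlgebraic ℚ Ω] [IsAlgClosed Ω]

theorem conj_mem_range (φ : Ω →+* ℂ) (x : Ω) : starRingEnd ℂ (φ x) ∈ φ.fieldRange := by
  have h1 : (Polynomial.map (algebraMap ℚ Ω) (minpoly ℚ x)).Splits := IsAlgClosed.splits _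
  have hx : IsIntegral ℚ x := (Algebra.IsAlgebraic.isAlgebraic x).isIntegral
  have hne : minpoly ℚ x ≠ 0 := minpoly.ne_zero hx
  have h2 := h1.image_rootSet_of_map_ne_zero (φ.toRatAlgHom)
    ((Polynomial.map_ne_zero_iff (algebraMap ℚ ℂ).injective).2 hne)
  have h3 : starRingEnd ℂ (φ x) ∈ (minpoly ℚ x).rootSet ℂ := by
    rw [Polynomial.mem_rootSet]
    refine ⟨hne, ?_⟩
    have h4 : starRingEnd ℂ (φ x) = ((starRingEnd ℂ).comp φ).toRatAlgHom x := rfl
    rw [h4, Polynomial.aeval_algHom_apply, minpoly.aeval, map_zero]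
  rw [← h2] at h3
  obtain ⟨y, -, hy⟩ := h3
  exact ⟨y, hy⟩

/-- The complex conjugation on `Ω` induced by an embedding. -/
theorem exists_conj (φ : Ω →+* ℂ) :
    ∃ c : Ω ≃+* Ω, (∀ x, φ (c x) = starRingEnd ℂ (φ x)) ∧ ∀ x, c (c x) = x := by
  have h0 : ∀ x, ∃ y, φ y = starRingEnd ℂ (φ x) := fun x ↦ conj_mem_range φ x
  choose c hc using h0
  have hcc : ∀ x, c (c x) = x := fun x ↦ φ.injective (by rw [hc, hc, Complex.conj_conj])
  refine ⟨⟨⟨c, c, hcc, hcc⟩, fun x y ↦ φ.injective ?_, fun x y ↦ φ.injective ?_⟩, hc, hcc⟩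
  · change φ (c (x * y)) = φ (c x * c y)
    rw [hc, map_mul, map_mul, map_mul, hc, hc]
  · change φ (c (x + y)) = φ (c x + c y)
    rw [hc, map_add, map_add, map_add, hc, hc]

end conj

section quad

variable {H : Type} [Field H] [CharZero H]

/-- A field with one complex conjugation is a CM field. -/
theorem isCM_of_conj [IsTotallyComplex H] (c : H →+* H) (hcc : ∀ x, c (c x) = x)
    (hc : ∀ (φ : H →+* ℂ) (x : H), φ (c x) = starRingEnd ℂ (φ x)) (φ₀ : H →+* ℂ) :
    IsCMField H := by
  have hmem : ∀ x, x ∈ maximalRealSubfield H ↔ c x = x := by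
    intro x
    rw [mem_maximalRealSubfield_iff]
    constructor
    · intro h
      exact φ₀.injective (by rw [hc]; exact h φ₀)
    · intro h φ
      change starRingEnd ℂ (φ x) = φ x
      rw [← hc, h]
  have hd : ∃ d, c d ≠ d := by
    by_contra hcon
    push Not at hcon
    have h1 : ComplexEmbedding.IsReal φ₀ := by
      rw [ComplexEmbedding.isReal_iff]
      ext x
      have := hc φ₀ x
      rw [hcon x] at this
      exact this.symm
    exact IsTotallyComplex.complexEmbedding_not_isReal φ₀ h1
  obtain ⟨d', hd'⟩ := hd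
  obtain ⟨d, hd0, hd1⟩ : ∃ d : H, d ≠ 0 ∧ c d = - d :=
    ⟨d' - c d', sub_ne_zero.2 (Ne.symm hd'), by rw [map_sub, hcc]; ring⟩
  have h2 : (2 : H) ≠ 0 := two_ne_zero
  have c2 : c 2 = 2 := map_ofNat c 2
  have hdn : c d ≠ d := by
    rw [hd1]
    intro h
    apply hd0
    have : 2 * d = 0 := by linear_combination -h
    exact (mul_eq_zero.1 this).resolve_left h2
  -- the basis
  have hli : LinearIndependent (maximalRealSubfield H) ![(1 : H), d] := by
    rw [LinearIndependent.pair_iff]
    intro s t hst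
    have hs := (hmem s).1 s.2
    have ht := (hmem t).1 t.2
    have e1 : (s : H) + (t : H) * d = 0 := by
      have := hst
      rw [Algebra.smul_def, Algebra.smul_def, mul_one] at this
      exact this
    have e2 : (s : H) - (t : H) * d = 0 := by
      have := congrArg c e1
      rw [map_add, map_mul, map_zero, hs, ht, hd1] at this
      linear_combination this
    have e3 : (t : H) = 0 := by
      have h3 : 2 * d * (t : H) = 0 := by linear_combination e1 - e2
      exact (mul_eq_zero.1 h3).resolve_left (mul_ne_zero h2 hd0)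
    have e4 : (s : H) = 0 := by
      rw [e3] at e1
      linear_combination e1
    exact ⟨Subtype.ext e4, Subtype.ext e3⟩
  have hsp : ⊤ ≤ Submodule.span (maximalRealSubfield H) (Set.range ![(1 : H), d]) := by
    intro x _
    rw [Matrix.range_cons, Matrix.range_cons, Matrix.range_empty, Set.union_empty,
      Set.singleton_union, Submodule.mem_span_pair]
    refine ⟨⟨(x + c x) / 2, (hmem _).2 ?_⟩, ⟨(x - c x) / (2 * d), (hmem _).2 ?_⟩, ?_⟩
    · rw [map_div₀, map_add, hcc, c2, add_comm]
    · rw [map_div₀, map_sub, hcc, map_mul, c2, hd1]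
      field_simp
      ring
    · rw [Algebra.smul_def, Algebra.smul_def]
      change (x + c x) / 2 * 1 + (x - c x) / (2 * d) * d = x
      field_simp
      ring
  have hfr : finrank (maximalRealSubfield H) H = 2 := by
    have := finrank_eq_card_basis (Basis.mk hli hsp)
    simpa using this
  exact { to_isTotallyComplex := inferInstance, is_quadratic := ⟨hfr⟩ }

end quad

theorem c_iff : Pool.Agent.Helper38.SD.C_IFF := by
  intro p _ F₀ K _ _ _ _ _ _ _ hdeg χ H _ hχ
  have hquad : Algebra.IsQuadraticExtension F₀ K := ⟨hdeg⟩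
  have hK : IsCMField K := IsCMField.ofCMExtension F₀ K
  have hK' : ∀ (φ : K →+* ℂ) (x : K), φ (IsCMField.complexConj K x) = starRingEnd ℂ (φ x) :=
    IsCMField.complexEmbedding_complexConj K
  have halg : Algebra.IsAlgebraic ℚ (AlgebraicClosure K) := Algebra.IsAlgebraic.trans ℚ K _
  constructor
  · intro hH g φ ψ h
    refine (hχ g).2 fun x hx ↦ ?_
    have h1 := h x (IsCMField.complexConj H ⟨x, hx⟩ : H)
      (IsCMField.complexEmbedding_complexConj H (φ.comp (algebraMap H (AlgebraicClosure K)))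
        ⟨x, hx⟩)
    have h2 : ψ (IsCMField.complexConj H ⟨x, hx⟩ : H) = starRingEnd ℂ (ψ x) :=
      IsCMField.complexEmbedding_complexConj H (ψ.comp (algebraMap H (AlgebraicClosure K)))
        ⟨x, hx⟩
    rw [h2] at h1
    exact (ψ.injective ((starRingEnd ℂ).injective h1)).symm
  · intro h
    choose c hc hcc using exists_conj (Ω := AlgebraicClosure K)
    have hcK : ∀ (φ : AlgebraicClosure K →+* ℂ) (k : K),
        c φ (algebraMap K (AlgebraicClosure K) k) =
          algebraMap K (AlgebraicClosure K) (IsCMField.complexConj K k) := by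
      intro φ k
      apply φ.injective
      rw [hc]
      exact (hK' (φ.comp (algebraMap K (AlgebraicClosure K))) k).symm
    have hsame : ∀ (φ ψ : AlgebraicClosure K →+* ℂ), ∀ x ∈ H, c φ x = c ψ x := by
      intro φ ψ x hx
      have h1 := h (AlgEquiv.ofRingEquiv (f := (c φ).trans (c ψ)) fun k ↦ by
        change c ψ (c φ _) = _
        rw [hcK φ k, ← hcK ψ k, hcc]) φ ψ ?_
      · have h2 : c ψ (c φ x) = x := (hχ _).1 h1 x hx
        have h3 := congrArg (c ψ) h2
        rwa [hcc] at h3
      · intro x y hxy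
        have h2 : y = c φ x := φ.injective (by rw [hxy, hc])
        change ψ y = starRingEnd ℂ (ψ (c ψ (c φ x)))
        rw [hc, Complex.conj_conj, h2]
    have hmem : ∀ (φ : AlgebraicClosure K →+* ℂ), ∀ x ∈ H, c φ x ∈ H := by
      intro φ x hx
      refine Pool.Agent.Helper79.RD.mem_of_fixed fun g hg ↦ ?_
      have h1 := hsame φ (φ.comp (g : AlgebraicClosure K →+* AlgebraicClosure K)) x hx
      have h2 : φ (g (c (φ.comp (g : AlgebraicClosure K →+* AlgebraicClosure K)) x)) =
          starRingEnd ℂ (φ (g x)) := hc (φ.comp (g : AlgebraicClosure K →+* AlgebraicClosure K)) x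
      rw [← h1, hg x hx, ← hc] at h2
      exact φ.injective h2
    obtain ⟨φ₀⟩ : Nonempty (AlgebraicClosure K →+* ℂ) :=
      ⟨(IsAlgClosed.lift (R := ℚ) (S := AlgebraicClosure K) (M := ℂ)).toRingHom⟩
    have hTC : IsTotallyComplex H := isTotallyComplex_of_algebra K H
    refine isCM_of_conj (((c φ₀ : AlgebraicClosure K →+* AlgebraicClosure K).comp
      (algebraMap H (AlgebraicClosure K))).codRestrict H.toSubring fun x ↦ hmem φ₀ x x.2) ?_ ?_
      (φ₀.comp (algebraMap H (AlgebraicClosure K)))
    · intro x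
      exact Subtype.ext (hcc φ₀ x)
    · intro φ x
      have halg' : Algebra.IsAlgebraic H (AlgebraicClosure K) := inferInstance
      let _ : Algebra H ℂ := φ.toAlgebra
      let ψ : AlgebraicClosure K →ₐ[H] ℂ := IsAlgClosed.lift
      have hψ : ∀ y : H, (ψ : AlgebraicClosure K →+* ℂ) (y : AlgebraicClosure K) = φ y :=
        fun y ↦ ψ.commutes y
      rw [← hψ, ← hψ, ← hc]
      exact congrArg _ (hsame φ₀ _ x x.2)

end Pool.Agent.Helper30.SD
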