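import Pool.Agent.Helper16.SD.GoalsE
import Pool.Agent.Helper16.REC.KBAS

/-!
# Project SD (MP_fc6b1e_nt), packet B_COR2: the contradiction
-/

set_option autoImplicit false

namespace Pool.Agent.Helper30.SD.B_COR2

open NumberField Module IsDedekindDomain
open Pool.Agent.Helper51.SigLeo Pool.Agent.Helper51.RP Pool.Agent.Helper51.REC
open Pool.Agent.Helper42.RD (ordv_mul ordv_pow ordv_eq_zero_iff norm_p)
open Pool.Agent.Helper16.SD

section arith

theorem castHom_eq_zero (p k : ℕ) (hp : p.Prime) (hk : 1 ≤ k) (y : ZMod (p ^ k))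
    (h : (p : ZMod (p ^ k)) ^ (k - 1) * y = 0) :
    ZMod.castHom (dvd_pow_self p (Nat.one_le_iff_ne_zero.1 hk)) (ZMod p) y = 0 := by
  have : NeZero (p ^ k) := ⟨(pow_pos hp.pos k).ne'⟩
  rw [← ZMod.natCast_zmod_val y] at h ⊢
  rw [map_natCast]
  have h1 : (((p ^ (k - 1) * y.val : ℕ)) : ZMod (p ^ k)) = 0 := by push_cast; exact h
  rw [ZMod.natCast_eq_zero_iff] at h1 ⊢
  have e : p ^ k = p ^ (k - 1) * p := by
    rw [← pow_succ]
    exact congrArg _ (by omega)
  have h2 : p ^ (k - 1) * p ∣ p ^ (k - 1) * y.val := e ▸ h1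
  exact Nat.dvd_of_mul_dvd_mul_left (pow_pos hp.pos _) h2

theorem pow_eq_iff {F : Type} [Field F] {ε : F} {p : ℕ} (hp : 0 < p) (hε : IsPrimitiveRoot ε p)
    (a b : ℕ) : ε ^ a = ε ^ b ↔ (a : ZMod p) = (b : ZMod p) := by
  have h0 : ε ≠ 0 := hε.ne_zero hp.ne'
  have h1 : ε ^ a = ε ^ b ↔ ε ^ ((a : ℤ) - (b : ℤ)) = 1 := by
    rw [zpow_sub₀ h0, zpow_natCast, zpow_natCast, div_eq_one_iff_eq (pow_ne_zero _ h0)]
  rw [h1, hε.zpow_eq_one_iff_dvd, ← ZMod.intCast_zmod_eq_zero_iff_dvd]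
  push_cast
  exact sub_eq_zero

end arith

section symb

variable {p : ℕ} [Fact p.Prime] {F : Type} [Field F] [NumberField F] {ε : F}

theorem kap_prod (hε : IsPrimitiveRoot ε p) (W : HeightOneSpectrum (𝓞 F))
    (hW : W.valuation F (p : F) = 1) {G : Type} (S : Finset G) (x : G → Fˣ)
    (hx : ∀ g, ordv W (x g : F) = 0) (n : G → ℕ) :
    kap p ε W (∏ g ∈ S, x g ^ n g) = ∑ g ∈ S, (n g : ZMod p) * kap p ε W (x g) ∧
      ordv W ((∏ g ∈ S, x g ^ n g : Fˣ) : F) = 0 := by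
  classical
  obtain ⟨-, -, -, hadd, hpth, -, -⟩ := Pool.Agent.Helper16.REC.k_bas p F ε hε W hW
  have h1 : kap p ε W 1 = 0 := by
    have := hpth 1
    rwa [one_pow] at this
  have o1 : ordv W ((1 : Fˣ) : F) = 0 := by
    rw [ordv_eq_zero_iff _ (Units.ne_zero _)]
    simp
  have hpow : ∀ (y : Fˣ), ordv W (y : F) = 0 → ∀ n : ℕ,
      kap p ε W (y ^ n) = (n : ZMod p) * kap p ε W y ∧ ordv W ((y ^ n : Fˣ) : F) = 0 := by
    intro y hy n
    have ho : ∀ n : ℕ, ordv W ((y ^ n : Fˣ) : F) = 0 := by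
      intro n
      rw [Units.val_pow_eq_pow_val, ordv_pow, hy, mul_zero]
    refine ⟨?_, ho n⟩
    induction n with
    | zero => simp [h1]
    | succ n ih =>
      rw [pow_succ, hadd _ _ (by rw [ho n]; exact dvd_zero _) (by rw [hy]; exact dvd_zero _), ih]
      push_cast
      ring
  induction S using Finset.induction_on with
  | empty => simp only [Finset.prod_empty, Finset.sum_empty]; exact ⟨h1, o1⟩
  | insert g S hg ih =>
    obtain ⟨i1, i2⟩ := ih
    obtain ⟨j1, j2⟩ := hpow (x g) (hx g) (n g)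
    rw [Finset.prod_insert hg, Finset.sum_insert hg]
    refine ⟨?_, ?_⟩
    · rw [hadd _ _ (by rw [j2]; exact dvd_zero _) (by rw [i2]; exact dvd_zero _), j1, i1]
    · rw [Units.val_mul, ordv_mul _ (Units.ne_zero _) (Units.ne_zero _), j2, i2, add_zero]

theorem finite_ordv (x : Fˣ) : {w : HeightOneSpectrum (𝓞 F) | ordv w (x : F) ≠ 0}.Finite := by
  refine ((HeightOneSpectrum.Support.finite (𝓞 F) (x : F)).union
    (HeightOneSpectrum.Support.finite (𝓞 F) (x : F)⁻¹)).subset ?_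
  intro w hw
  have hne : w.valuation F (x : F) ≠ 1 := by
    intro h1
    apply hw
    exact (ordv_eq_zero_iff _ x.ne_zero).2 h1
  have h0 : w.valuation F (x : F) ≠ 0 := (Valuation.ne_zero_iff _).mpr x.ne_zero
  rcases lt_or_gt_of_ne hne with h | h
  · right
    show 1 < w.valuation F (x : F)⁻¹
    rw [map_inv₀]
    exact (one_lt_inv₀ (zero_lt_iff.mpr h0)).mpr h
  · left
    exact h

theorem finite_p : {w : HeightOneSpectrum (𝓞 F) | w.valuation F (p : F) ≠ 1}.Finite := by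
  have hp0 : (p : F) ≠ 0 := Nat.cast_ne_zero.2 (Fact.out : p.Prime).ne_zero
  refine (finite_ordv (Units.mk0 (p : F) hp0)).subset fun w hw h => hw ?_
  exact (ordv_eq_zero_iff _ hp0).1 h

theorem not_primeOf (W : HeightOneSpectrum (𝓞 F)) (hW : W.valuation F (p : F) = 1)
    (τ : F →+* ℂ_[p]) : ¬ PrimeOf τ W := by
  intro h
  have e : ((p : 𝓞 F) : F) = p := map_natCast (algebraMap (𝓞 F) F) p
  have hp1 : (1 : ℝ) < p := by exact_mod_cast (Fact.out : p.Prime).one_lt
  have h1 := (h (p : 𝓞 F)).2 (by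
    rw [e, map_natCast, norm_p p, div_lt_one (by linarith)]
    exact hp1)
  have h3 : W.valuation F ((p : 𝓞 F) : F) < 1 :=
    (W.valuation_lt_one_iff_mem (K := F) (p : 𝓞 F)).2 h1
  rw [e] at h3
  exact h3.ne hW

theorem gP_inj {K : Type} [Field K] [Algebra K F] (g : F ≃ₐ[K] F) :
    Function.Injective (gP g : HeightOneSpectrum (𝓞 F) → HeightOneSpectrum (𝓞 F)) := by
  intro W W' h
  have h1 := congrArg HeightOneSpectrum.asIdeal h
  have h2 := Ideal.comap_injective_of_surjective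
    (RingOfIntegers.mapRingEquiv (g⁻¹ : F ≃ₐ[K] F).toRingEquiv)
    (RingOfIntegers.mapRingEquiv (g⁻¹ : F ≃ₐ[K] F).toRingEquiv).surjective
  exact HeightOneSpectrum.ext (h2 h1)

end symb

theorem t : B_COR2 := by
  intro hACT hDNS p _ K _ _ F _ _ s hs ε hε B k hk φ e b ϑ x Z c hZ hc hJ hK hA hU
  classical
  by_contra hkb
  have hp : p.Prime := Fact.out
  -- the cyclotomic character
  have hm : ∀ g : F ≃ₐ[K] F, ∃ m : ℕ, g ε = ε ^ m := by
    intro g
    have : NeZero p := ⟨hp.ne_zero⟩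
    obtain ⟨i, -, hi⟩ := hε.eq_pow_of_pow_eq_one (ξ := g ε) (by
      rw [← map_pow, hε.pow_eq_one, map_one])
    exact ⟨i, hi.symm⟩
  choose m hm using hm
  have hmm : ∀ g : F ≃ₐ[K] F, (m g : ZMod p) * (m g⁻¹ : ZMod p) = 1 := by
    intro g
    have h1 : ε ^ (m g * m g⁻¹) = ε ^ 1 := by
      have h2 : g (g⁻¹ ε) = ε := by rw [← AlgEquiv.mul_apply, mul_inv_cancel, AlgEquiv.one_apply]
      rw [hm g⁻¹, map_pow, hm g, ← pow_mul] at h2
      rw [h2, pow_one]
    have := (pow_eq_iff hp.pos hε _ _).1 h1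
    push_cast at this
    exact this
  set eb : (F ≃ₐ[K] F) → ZMod p := fun g =>
    ZMod.castHom (dvd_pow_self p (Nat.one_le_iff_ne_zero.1 hk)) (ZMod p)
      (PadicInt.toZModPow k (e g)) with heb
  set n : (F ≃ₐ[K] F) → ℕ := fun g => (eb g * (m g : ZMod p)).val with hn
  have hn' : ∀ g, (n g : ZMod p) = eb g * (m g : ZMod p) := by
    intro g
    have : NeZero p := ⟨hp.ne_zero⟩
    exact ZMod.natCast_zmod_val _
  set X : (F ≃ₐ[K] F) → Fˣ := fun g => Units.map ((g⁻¹ : F ≃ₐ[K] F) : F →* F) x with hX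
  set x' : Fˣ := ∏ g, X g ^ n g with hx'
  -- the exceptional set
  set E0 : Set (HeightOneSpectrum (𝓞 F)) := Z ∪ {w | w.valuation F (p : F) ≠ 1} ∪
    {w | ordv w (x : F) ≠ 0} with hE0
  have hE0f : E0.Finite := (hZ.union finite_p).union (finite_ordv x)
  set Z' : Set (HeightOneSpectrum (𝓞 F)) := E0 ∪ ⋃ g : F ≃ₐ[K] F, (gP g) ⁻¹' E0 with hZ'
  have hZ'f : Z'.Finite := by
    refine hE0f.union (Set.finite_iUnion fun g => ?_)
    exact hE0f.preimage (gP_inj g).injOn
  have hPw : Pw p x' := by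
    refine hDNS p F ε hε x' Z' hZ'f fun W hW => ?_
    have hW0 : W ∉ E0 := fun h => hW (Or.inl h)
    have hWg : ∀ g : F ≃ₐ[K] F, gP g W ∉ E0 := fun g h =>
      hW (Or.inr (Set.mem_iUnion.2 ⟨g, h⟩))
    have hWp : W.valuation F (p : F) = 1 := by
      by_contra h
      exact hW0 (Or.inl (Or.inr h))
    have hord : ∀ g : F ≃ₐ[K] F, ordv W (X g : F) = 0 := by
      intro g
      obtain ⟨a1, -⟩ := hACT p K F ε hε g (m g) (hm g) W hWp x
      have : ordv W (X g : F) = ordv (gP g W) (x : F) := (a1 (x : F)).symm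
      rw [this]
      by_contra h
      exact hWg g (Or.inr h)
    rw [hx', (kap_prod hε W hWp Finset.univ X hord n).1]
    have hkap : ∀ g : F ≃ₐ[K] F, kap p ε (gP g W) x = (m g : ZMod p) * kap p ε W (X g) :=
      fun g => (hACT p K F ε hε g (m g) (hm g) W hWp x).2
    have e1 : ∑ g, (n g : ZMod p) * kap p ε W (X g) = ∑ g, eb g * kap p ε (gP g W) x := by
      refine Finset.sum_congr rfl fun g _ => ?_
      rw [hn', hkap]
      ring
    rw [e1]
    -- from `hJ`
    have h1 := hJ W fun τ _ => not_primeOf W hWp τ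
    have h2 : (p : ZMod (p ^ k)) ^ (k - 1) *
        ∑ g, PadicInt.toZModPow k (e g) * ((kap p ε (gP g W) x).val : ZMod (p ^ k)) = 0 := by
      have h3 : (p : ZMod (p ^ k)) ^ (k - 1) *
          ∑ g, PadicInt.toZModPow k (e g) * ϑ (gP g W) = 0 := by
        have : k - 1 = (k - 1 - b) + b := by omega
        rw [this, pow_add, mul_assoc, h1, mul_zero]
      rw [← h3, Finset.mul_sum, Finset.mul_sum]
      refine Finset.sum_congr rfl fun g _ => ?_
      have h4 := hK (gP g W) fun h => hWg g (Or.inl (Or.inl h))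
      rw [mul_left_comm, ← h4, mul_left_comm]
    have h5 := castHom_eq_zero p k hp hk _ h2
    rw [map_sum] at h5
    rw [← h5]
    refine Finset.sum_congr rfl fun g _ => ?_
    have : NeZero p := ⟨hp.ne_zero⟩
    rw [map_mul, map_natCast, ZMod.natCast_zmod_val]
  obtain ⟨w, hw⟩ := hPw
  obtain ⟨a, haF, hau⟩ := hU
  -- the action of the lifts
  have hs1 : ∀ (g : F ≃ₐ[K] F) (y : F), (s g) (y : AlgebraicClosure K) =
      ((g y : F) : AlgebraicClosure K) := by
    intro g y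
    rw [← AlgEquiv.restrictNormalHom_apply F (s g) y, hs g]
  have hcan : ∀ (g : F ≃ₐ[K] F) (z : AlgebraicClosure K), (s g) ((s g)⁻¹ z) = z := by
    intro g z
    rw [← AlgEquiv.mul_apply, mul_inv_cancel, AlgEquiv.one_apply]
  have hcan' : ∀ (g : F ≃ₐ[K] F) (z : AlgebraicClosure K), (s g)⁻¹ ((s g) z) = z := by
    intro g z
    rw [← AlgEquiv.mul_apply, inv_mul_cancel, AlgEquiv.one_apply]
  have hs2 : ∀ (g : F ≃ₐ[K] F) (y : F), (s g)⁻¹ (y : AlgebraicClosure K) =
      ((g⁻¹ y : F) : AlgebraicClosure K) := by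
    intro g y
    apply (s g).injective
    rw [hcan, hs1, ← AlgEquiv.mul_apply, mul_inv_cancel, AlgEquiv.one_apply]
  have hr : ∀ g : F ≃ₐ[K] F, ∃ r : AlgebraicClosure K,
      r ^ p = (((X g : Fˣ) : F) : AlgebraicClosure K) := fun g =>
    IsAlgClosed.exists_pow_nat_eq _ hp.pos
  choose r hr using hr
  have hXg : ∀ g, ((X g : Fˣ) : F) = g⁻¹ (x : F) := fun g => rfl
  -- the action of `a` on `r g`
  have har : ∀ g : F ≃ₐ[K] F, a (r g) = (ε : AlgebraicClosure K) ^
      (m g⁻¹ * (c * ZMod.castHom (dvd_pow_self p (Nat.one_le_iff_ne_zero.1 hk)) (ZMod p)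
        (φ (s g * a * (s g)⁻¹))).val) * r g := by
    intro g
    have h1 := hA (s g * a * (s g)⁻¹) (by
      intro y hy
      have : y = ((⟨y, hy⟩ : F) : AlgebraicClosure K) := rfl
      rw [this, AlgEquiv.mul_apply, AlgEquiv.mul_apply, hs2,
        haF _ (g⁻¹ (⟨y, hy⟩ : F)).2, hs1, ← AlgEquiv.mul_apply, mul_inv_cancel,
        AlgEquiv.one_apply]) ((s g) (r g)) (by
      rw [← map_pow, hr, hXg, hs1, ← AlgEquiv.mul_apply, mul_inv_cancel, AlgEquiv.one_apply])
    rw [AlgEquiv.mul_apply, AlgEquiv.mul_apply, hcan'] at h1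
    have h2 := congrArg (fun z => (s g)⁻¹ z) h1
    simp only [map_mul, map_pow, hcan'] at h2
    rw [h2, hs2, hm g⁻¹]
    push_cast
    rw [← pow_mul]
  -- the product
  set ρ : AlgebraicClosure K := ∏ g, r g ^ n g with hρ
  have hx0 : ∀ g, r g ≠ 0 := by
    intro g h0
    have h1 := hr g
    rw [h0, zero_pow hp.ne_zero] at h1
    have h2 : ((X g : Fˣ) : F) = 0 := by exact_mod_cast h1.symm
    exact (X g).ne_zero h2
  have hρ0 : ρ ≠ 0 := Finset.prod_ne_zero_iff.2 fun g _ => pow_ne_zero _ (hx0 g)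
  have hρp : ρ ^ p = (((w : Fˣ) : F) : AlgebraicClosure K) ^ p := by
    have h1 : (((x' : Fˣ) : F) : AlgebraicClosure K) =
        (((w : Fˣ) : F) : AlgebraicClosure K) ^ p := by
      rw [hw]; push_cast; rfl
    rw [← h1, hx', hρ, ← Finset.prod_pow]
    have h2 : (((∏ g, X g ^ n g : Fˣ) : F) : AlgebraicClosure K) =
        ∏ g, (((X g : Fˣ) : F) : AlgebraicClosure K) ^ n g := by
      push_cast
      rfl
    rw [h2]
    refine Finset.prod_congr rfl fun g _ => ?_
    rw [← hr, ← pow_mul, ← pow_mul, mul_comm]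
  have hw0 : (((w : Fˣ) : F) : AlgebraicClosure K) ≠ 0 := by
    intro h
    have : ((w : Fˣ) : F) = 0 := by exact_mod_cast h
    exact w.ne_zero this
  have hεΩ : IsPrimitiveRoot (ε : AlgebraicClosure K) p :=
    hε.map_of_injective (f := (algebraMap F (AlgebraicClosure K)))
      (FaithfulSMul.algebraMap_injective F (AlgebraicClosure K))
  have haρ : a ρ = ρ := by
    have : NeZero p := ⟨hp.ne_zero⟩
    obtain ⟨i, -, hi⟩ := hεΩ.eq_pow_of_pow_eq_one (ξ := ρ / (((w : Fˣ) : F) : AlgebraicClosure K))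
      (by rw [div_pow, hρp, div_self (pow_ne_zero _ hw0)])
    have h1 : ρ = (ε : AlgebraicClosure K) ^ i * (((w : Fˣ) : F) : AlgebraicClosure K) := by
      rw [hi, div_mul_cancel₀ _ hw0]
    rw [h1, map_mul, map_pow, haF _ ε.2, haF _ (w : F).2]
  have haρ2 : a ρ = (ε : AlgebraicClosure K) ^ (∑ g, (m g⁻¹ *
      (c * ZMod.castHom (dvd_pow_self p (Nat.one_le_iff_ne_zero.1 hk)) (ZMod p)
        (φ (s g * a * (s g)⁻¹))).val) * n g) * ρ := by
    rw [hρ, map_prod, ← Finset.prod_pow_eq_pow_sum, ← Finset.prod_mul_distrib]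
    refine Finset.prod_congr rfl fun g _ => ?_
    rw [map_pow, har, mul_pow, ← pow_mul]
  have h1 : (ε : AlgebraicClosure K) ^ (∑ g, (m g⁻¹ *
      (c * ZMod.castHom (dvd_pow_self p (Nat.one_le_iff_ne_zero.1 hk)) (ZMod p)
        (φ (s g * a * (s g)⁻¹))).val) * n g) = (ε : AlgebraicClosure K) ^ 0 := by
    rw [haρ2] at haρ
    rw [pow_zero]
    exact (mul_eq_right₀ hρ0).1 haρ
  have h2 := (pow_eq_iff hp.pos hεΩ _ _).1 h1
  have : NeZero p := ⟨hp.ne_zero⟩
  push_cast at h2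
  simp only [ZMod.natCast_zmod_val] at h2
  have h3 : c * ZMod.castHom (dvd_pow_self p (Nat.one_le_iff_ne_zero.1 hk)) (ZMod p)
      (∑ g, PadicInt.toZModPow k (e g) * φ (s g * a * (s g)⁻¹)) = 0 := by
    rw [← h2, map_sum, Finset.mul_sum]
    refine Finset.sum_congr rfl fun g _ => ?_
    rw [map_mul, hn']
    have h4 := hmm g
    have h5 : eb g = ZMod.castHom (dvd_pow_self p (Nat.one_le_iff_ne_zero.1 hk)) (ZMod p)
      (PadicInt.toZModPow k (e g)) := rfl
    rw [← h5]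
    linear_combination (-(c * eb g * ZMod.castHom
      (dvd_pow_self p (Nat.one_le_iff_ne_zero.1 hk)) (ZMod p) (φ (s g * a * (s g)⁻¹)))) * h4
  have : Nontrivial (ZMod p) := by
    have : Fact (1 < p) := ⟨hp.one_lt⟩
    infer_instance
  have h6 := hc.mul (hau.map (ZMod.castHom (dvd_pow_self p (Nat.one_le_iff_ne_zero.1 hk)) (ZMod p)))
  exact h6.ne_zero h3

end Pool.Agent.Helper30.SD.B_COR2
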