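import Pool.Agent.Helper16.SD.GoalsS
import Pool.Agent.Helper17.SL.Chain

/-!
# Project SD (MP_fc6b1e_nt), packet R_MAT: rank of the `p`-adic matrix
-/

set_option autoImplicit false

namespace Pool.Agent.Helper30.SD.R_MAT

open NumberField Module IsDedekindDomain TensorProduct
open Pool.Agent.Helper51.SigLeo Pool.Agent.Helper51.RP Pool.Agent.Helper51.REC
open Pool.Agent.Helper17.SL (archLog S_TRANS)
open Pool.Agent.Helper16.SD
open Pool.Agent.Helper51.SixExp (IsUnitAlg)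

section units

variable {F Ω : Type} [Field F] [Field Ω]

/-- a unit of `F` in `Ω` -/
noncomputable def yy (τ : F →+* Ω) (v : Additive (𝓞 F)ˣ) : Ωˣ :=
  Units.map ((τ.comp (algebraMap (𝓞 F) F) : 𝓞 F →+* Ω) : 𝓞 F →* Ω) v.toMul

theorem yy_unit (τ : F →+* Ω) (v : Additive (𝓞 F)ˣ) : IsUnitAlg (yy τ v) := by
  refine ⟨?_, ?_⟩
  · exact map_isIntegral_int τ (RingOfIntegers.isIntegral_coe ((v.toMul : (𝓞 F)ˣ) : 𝓞 F))
  · have : ((yy τ v)⁻¹ : Ωˣ) = yy τ (-v) := by
      unfold yy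
      rw [← map_inv, toMul_neg]
    rw [this]
    exact map_isIntegral_int τ (RingOfIntegers.isIntegral_coe (((-v).toMul : (𝓞 F)ˣ) : 𝓞 F))

theorem log_yy {p : ℕ} {k : Type} [NormedField k] (L : IwasawaLog p k) (ι : Ω →+* k)
    (τ : F →+* Ω) (v : Additive (𝓞 F)ˣ) :
    logUnits L (ι.comp τ) v = L.toFun (Units.map (ι : Ω →* k) (yy τ v)) :=
  congrArg L.toFun (Units.ext rfl)

theorem arch_yy (ρ : Ω →+* ℂ) (τ : F →+* Ω) (v : Additive (𝓞 F)ˣ) :
    archLog (ρ.comp τ) v = ((Real.log ‖ρ ((yy τ v : Ωˣ) : Ω)‖ : ℝ) : ℂ) := rfl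

end units

theorem unitsHom_mul {K F : Type} [Field K] [Field F] [Algebra K F] (g h : F ≃ₐ[K] F)
    (v : Additive (𝓞 F)ˣ) : unitsHom (g * h) v = unitsHom g (unitsHom h v) := by
  apply Additive.toMul.injective
  apply Units.ext
  apply RingOfIntegers.ext
  rfl

theorem move {K F Ω : Type} [Field K] [Field F] [Algebra K F] [Field Ω] (γ : Ω ≃+* Ω)
    (τ τ' : F →+* Ω) (h : F ≃ₐ[K] F) (H : ∀ x, γ (τ x) = τ' (h x)) (v : Additive (𝓞 F)ˣ) :
    γ ((yy τ v : Ωˣ) : Ω) = ((yy τ' (unitsHom h v) : Ωˣ) : Ω) :=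
  H _

theorem t (hA : A_TRV) : R_MAT := by
  intro hRK hST F₀ K _ _ _ _ _ _ _ hFK p _ ιinf ιp Lg c hcc F _ _ _ _ _ E _ _ lam χ' s h hs hsh
    hco hmv
  generalize hd : finrank ℚ F₀ = d
  intro u hnd a σ hσ
  classical
  set M : Matrix (Fin d) (Fin a) ℂ_[p] := fun (r : Fin d) (q : Fin a) ↦
        ∑ g, ιp (lam (χ' g⁻¹ : Eˣ)) * logUnits Lg (ιp.comp (s (σ q))) (unitsHom g (u r)) with hM
  have : Algebra.IsAlgebraic ℚ (AlgebraicClosure K) := by
    have h1 : Algebra.IsAlgebraic ℚ K := inferInstance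
    exact Algebra.IsAlgebraic.trans ℚ K (AlgebraicClosure K)
  have key := hRK p ℂ_[p] (AlgebraicClosure K) ιp Lg E lam d a (F ≃ₐ[K] F)
    (fun _ _ g => ((χ' g⁻¹ : Eˣ) : E)) (fun r q g => yy (s (σ q)) (unitsHom g (u r))) M
    (fun r q g => yy_unit _ _) (fun r q => by
      rw [hM]
      exact Finset.sum_congr rfl fun g _ => by rw [log_yy]) d a ?_
  · rw [mul_comm a d, add_comm a d]
    exact key
  intro C
  -- extension by zero
  set T : (Fin a → E) →ₗ[E] ((K →+* AlgebraicClosure K) → E) :=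
    Function.ExtendByZero.linearMap E σ with hT
  have hTapp : ∀ (v : Fin a → E) (q : Fin a), T v (σ q) = v q := fun v q =>
    hσ.extend_apply _ _ _
  have hTapp' : ∀ (v : Fin a → E) (i : K →+* AlgebraicClosure K), (¬ ∃ q, σ q = i) →
      T v i = 0 := fun v i hi => Function.extend_apply' _ _ _ hi
  have hTinj : Function.Injective T := by
    intro v w hvw
    funext q
    rw [← hTapp v q, hvw, hTapp]
  set C' : Submodule E ((K →+* AlgebraicClosure K) → E) := C.map T with hC'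
  have hfin : finrank E C = finrank E C' := (Submodule.equivMapOfInjective T hTinj C).finrank_eq
  set A : Finset (K →+* AlgebraicClosure K) := Finset.univ.image σ with hAdef
  have hAcard : A.card = a := by
    rw [hAdef, Finset.card_image_of_injective _ hσ, Finset.card_univ, Fintype.card_fin]
  set m : (AlgebraicClosure K ≃+* AlgebraicClosure K) → (K →+* AlgebraicClosure K) → Eˣ :=
    fun γ i => χ' (h γ i) with hm
  have hcoc : IsCoc m := by
    intro γ δ i
    simp only [hm]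
    rw [hco, map_mul]
  have hcard : Fintype.card (K →+* AlgebraicClosure K) = 2 * d := by
    rw [NumberField.Embeddings.card, ← Module.finrank_mul_finrank ℚ F₀ K, hFK, hd, mul_comm]
  set ε : E →+* ℂ := ιinf.comp lam with hε
  have st := hST E (K →+* AlgebraicClosure K) (AlgebraicClosure K ≃+* AlgebraicClosure K) m hcoc
    (fun i j => hA K i j) c hcc hmv ε d
    (fun r i => alog ε χ' (ιinf.comp (s i)) (u r)) hcard hnd A C' (by
      rintro w ⟨v, hv, rfl⟩ i hi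
      apply hTapp'
      rintro ⟨q, rfl⟩
      exact hi (Finset.mem_image_of_mem σ (Finset.mem_univ q)))
  rw [hAcard, ← hfin] at st
  refine st.trans (Nat.mul_le_mul_left a (Nat.sub_le_sub_left ?_ d))
  apply Submodule.finrank_mono
  intro x hx
  rintro w ⟨γ, v, ⟨e, he, rfl⟩, rfl⟩
  -- the `p`-adic relation
  have h1 : ∑ r, ∑ q, (ιp.comp lam) (x r) * (ιp.comp lam) (e q) * M r q = 0 := hx e he
  have h2 : ∑ i : Fin d × Fin a × (F ≃ₐ[K] F), ιp (lam (x i.1 * e i.2.1 * (χ' i.2.2⁻¹ : Eˣ))) *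
      Lg.toFun (Units.map (ιp : AlgebraicClosure K →* ℂ_[p])
        (yy (s (σ i.2.1)) (unitsHom i.2.2 (u i.1)))) = 0 := by
    rw [← h1, Fintype.sum_prod_type]
    refine Finset.sum_congr rfl fun r _ => ?_
    rw [Fintype.sum_prod_type]
    refine Finset.sum_congr rfl fun q _ => ?_
    rw [hM, Finset.mul_sum]
    refine Finset.sum_congr rfl fun g _ => ?_
    rw [log_yy]
    simp only [map_mul, RingHom.comp_apply]
    ring
  -- transfer
  have h3 := Pool.Agent.Helper17.SL.trans_holds p ℂ_[p] (AlgebraicClosure K) ιp Lg E lam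
    (Fin d × Fin a × (F ≃ₐ[K] F)) (fun i => x i.1 * e i.2.1 * (χ' i.2.2⁻¹ : Eˣ))
    (fun i => yy (s (σ i.2.1)) (unitsHom i.2.2 (u i.1))) (fun i => yy_unit _ _) h2 ε
    (ιinf.comp (γ : AlgebraicClosure K →+* AlgebraicClosure K))
  rw [Fintype.sum_prod_type] at h3
  rw [← h3]
  refine Finset.sum_congr rfl fun r _ => ?_
  rw [Fintype.sum_prod_type]
  -- reindex by `γ`
  have h4 : ∑ i, ε (x r) * ε ((rho m γ (T e)) i) * alog ε χ' (ιinf.comp (s i)) (u r) =
      ∑ i, ε (x r) * (ε (m γ i : Eˣ) * ε (T e i)) * alog ε χ' (ιinf.comp (s (γ • i))) (u r) := by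
    symm
    refine Fintype.sum_equiv (MulAction.toPerm γ) _ _ fun i => ?_
    have : (MulAction.toPerm γ) i = γ • i := rfl
    rw [this]
    have h5 : (rho m γ (T e)) (γ • i) = (m γ i : Eˣ) * T e i := by
      show ((m γ (γ⁻¹ • γ • i) : Eˣ) : E) * T e (γ⁻¹ • γ • i) = _
      rw [inv_smul_smul]
    rw [h5, map_mul]
  rw [h4]
  symm
  refine Fintype.sum_of_injective σ hσ _ _ (fun i hi => ?_) fun q => ?_
  · rw [hTapp' e i (fun ⟨q, hq⟩ => hi ⟨q, hq⟩), map_zero, mul_zero, mul_zero, zero_mul]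
  · rw [hTapp, alog, Finset.mul_sum]
    refine Fintype.sum_equiv (Equiv.mulLeft (h γ (σ q))) _ _ fun g => ?_
    have h6 : (Equiv.mulLeft (h γ (σ q))) g = h γ (σ q) * g := rfl
    rw [h6]
    have h7 : archLog (ιinf.comp (s (γ • σ q))) (unitsHom (h γ (σ q) * g) (u r)) =
        ((Real.log ‖(ιinf.comp (γ : AlgebraicClosure K →+* AlgebraicClosure K))
          ((yy (s (σ q)) (unitsHom g (u r)) : (AlgebraicClosure K)ˣ) : AlgebraicClosure K)‖ : ℝ) :
            ℂ) := by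
      rw [arch_yy, unitsHom_mul, ← move γ (s (σ q)) (s (γ • σ q)) (h γ (σ q)) (hsh γ (σ q))]
      rfl
    rw [h7]
    have h8 : ((χ' (h γ (σ q) * g)⁻¹ : Eˣ) : E) = (χ' g⁻¹ : Eˣ) * ((χ' (h γ (σ q)))⁻¹ : Eˣ) := by
      rw [mul_inv_rev, map_mul, map_inv χ' (h γ (σ q)), Units.val_mul]
    rw [h8]
    simp only [map_mul]
    have h9 : ε ((m γ (σ q) : Eˣ) : E) * ε (((χ' (h γ (σ q)))⁻¹ : Eˣ) : E) = 1 := by
      rw [← map_mul, hm]
      simp
    linear_combination (-(ε (x r) * ε (e q) * ε ((χ' g⁻¹ : Eˣ) : E) *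
      ((Real.log ‖(ιinf.comp (γ : AlgebraicClosure K →+* AlgebraicClosure K))
          ((yy (s (σ q)) (unitsHom g (u r)) : (AlgebraicClosure K)ˣ) : AlgebraicClosure K)‖ : ℝ) :
            ℂ))) * h9

end Pool.Agent.Helper30.SD.R_MAT
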