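import Pool.Agent.Helper16.SD.GoalsX
import Pool.Agent.Helper17.TH.TOW

/-!
# Project SD (MP_fc6b1e_nt), packet X_ASM: `S_DUAL`
-/

set_option autoImplicit false

namespace Pool.Agent.Helper30.SD.X_ASM

open NumberField Module IsDedekindDomain TensorProduct Polynomial
open Pool.Agent.Helper51.SigLeo Pool.Agent.Helper51.RP Pool.Agent.Helper51.REC
open Pool.Agent.Helper42.RD (TSet)
open Pool.Agent.Helper38.FD (Chr CutsOut LeopoldtFor)
open Pool.Agent.Helper38.TH (IsTower Hat)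
open Pool.Agent.Helper17.TH (tow_pow tow_one tow_prim)
open Pool.Agent.Helper16.SD

variable {p : ℕ} [Fact p.Prime] {K : Type} [Field K] [NumberField K]

omit [NumberField K] in
/-- The elements of `Hat η` -/
theorem hat_cases {η : ℕ → Chr K (AlgebraicClosure K) ℂ_[p]} (h0 : η 0 = 1)
    (hs : ∀ n, η (n + 1) ^ p = η n) (ξ : Chr K (AlgebraicClosure K) ℂ_[p]) (hξ : ξ ∈ Hat η) :
    ξ = 1 ∨ ∃ n b : ℕ, 1 ≤ n ∧ ¬ p ∣ b ∧ ξ = η n ^ b := by
  obtain ⟨n, a, rfl⟩ := hξ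
  induction n generalizing a with
  | zero =>
    left
    rw [h0]
    ext g
    simp only [MonoidHom.pow_apply, MonoidHom.one_apply, one_pow]
  | succ n ih =>
    by_cases ha : p ∣ a
    · obtain ⟨b, rfl⟩ := ha
      have e : η (n + 1) ^ (p * b) = (η (n + 1) ^ p) ^ b := by
        ext g
        simp only [MonoidHom.pow_apply, pow_mul]
      rw [e, hs]
      exact ih b
    · exact Or.inr ⟨n + 1, a, by omega, ha, rfl⟩

/-- the values of `χ` are roots of unity -/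
theorem finite_order {F : IntermediateField K (AlgebraicClosure K)} [NumberField F] [IsGalois K F]
    {χ : Chr K (AlgebraicClosure K) ℂ_[p]}
    (h : ∀ g : AlgebraicClosure K ≃ₐ[K] AlgebraicClosure K, (∀ x ∈ F, g x = x) → χ g = 1) :
    ∃ d : ℕ, 0 < d ∧ ∀ g, ((χ g : ℂ_[p]ˣ) : ℂ_[p]) ^ d = 1 := by
  have hfin : Finite (F ≃ₐ[K] F) := inferInstance
  refine ⟨Nat.card (F ≃ₐ[K] F), Nat.card_pos, fun g => ?_⟩
  have h1 : (AlgEquiv.restrictNormalHom F g) ^ Nat.card (F ≃ₐ[K] F) = 1 := pow_card_eq_one'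
  have h2 : χ (g ^ Nat.card (F ≃ₐ[K] F)) = 1 := by
    apply h
    intro x hx
    have h3 := AlgEquiv.restrictNormalHom_apply F (g ^ Nat.card (F ≃ₐ[K] F)) ⟨x, hx⟩
    rw [map_pow, h1] at h3
    exact h3.symm
  rw [map_pow] at h2
  rw [← Units.val_pow_eq_pow_val, h2, Units.val_one]

theorem t : X_ASM := by
  classical
  intro hTW hLEV hCNT p _ hp2 K _ _ _ hspl ιinf ιp Lg η om u hcyc χ ν F _ _ B hbase S hS
  have hp : p.Prime := Fact.out
  obtain ⟨E, _, _, g₀, hT⟩ := hTW p K Lg η om u hcyc χ ν F B hbase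
  obtain ⟨gt, N, hgt, hmain⟩ := hLEV p hp2 K hspl ιinf ιp Lg η om u hcyc χ ν F B hbase S hS E g₀ hT
  obtain ⟨d, hd, hχ⟩ := finite_order (F := F) (χ := χ) fun g hg => ((hbase.cutF g).1 hg).1
  have hη := hcyc.tower
  set Lv : Set ℕ := {n | 1 ≤ n ∧ ∃ b : ℕ, ¬ p ∣ b ∧ ¬ LeopoldtFor ιinf ιp Lg S (χ * η n ^ b)}
    with hLv
  have hLvfin : Lv.Finite := by
    by_contra hinf
    obtain ⟨s, hs1, hs2⟩ := Set.Infinite.exists_subset_card_eq hinf (N + 1)
    obtain ⟨D, hD0, hDr⟩ := hmain (s.sup id)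
    have := hCNT p hp2 ((χ gt : ℂ_[p]ˣ) : ℂ_[p]) d hd (hχ gt) ((u gt : ℤ_[p]ˣ) : ℤ_[p])
      (hcyc.u_one gt) N D hD0 s (fun n hn ↦ by
      obtain ⟨hn1, b, hb, hbad⟩ := hs1 hn
      have hle : n ≤ s.sup id := Finset.le_sup (f := id) hn
      obtain ⟨k, hk⟩ := Nat.exists_eq_add_of_le hle
      refine ⟨hn1, (((η n ^ b) gt : ℂ_[p]ˣ) : ℂ_[p]), ?_, hDr (η n ^ b) (fun g hg ↦ ?_) hbad⟩
      · rw [MonoidHom.pow_apply, Units.val_pow_eq_pow_val]
        refine (tow_prim hη.zero hη.pow gt hgt n hn1).pow_of_coprime b ?_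
        exact Nat.Coprime.pow_right n ((Nat.Prime.coprime_iff_not_dvd hp).2 hb).symm
      · rw [MonoidHom.pow_apply, ← tow_pow hη.pow n k g, ← hk, hg, one_pow, one_pow])
    omega
  refine Set.Finite.subset (s := {1} ∪ ⋃ n ∈ Lv, (fun b : ℕ ↦ η n ^ b) '' Set.Iio (p ^ n)) ?_ ?_
  · refine (Set.finite_singleton _).union (hLvfin.biUnion fun n _ ↦ ?_)
    exact (Set.finite_Iio _).image _
  · rintro ξ ⟨hξ, hbad⟩
    rcases hat_cases hη.zero hη.pow ξ hξ with rfl | ⟨n, b, hn, hb, rfl⟩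
    · exact Or.inl rfl
    · right
      refine Set.mem_biUnion (show n ∈ Lv from ⟨hn, b, hb, hbad⟩) ⟨b % p ^ n,
        Nat.mod_lt _ (pow_pos hp.pos _), ?_⟩
      ext g
      simp only [MonoidHom.pow_apply]
      exact congrArg _ (pow_eq_pow_mod b (tow_one hη.zero hη.pow n g)).symm

end Pool.Agent.Helper30.SD.X_ASM
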